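import Pool.Agent.H4.SkewDet.Main

/-!
# Skew-symmetric determinantal representations of two-variable stable polynomials

Every admissible polynomial `p` of total degree `n` (stable, all monomials of degree congruent to
`n` modulo `2`, `p_n(1,0) ≠ 0`, `p_n(0,1) ≠ 0`) is a nonzero constant multiple of
`det (A + i (x B₁ + y B₂))` with `A` real skew-symmetric and `B₁, B₂` real positive definite.
-/

namespace Pool.Agent.Results.MP_ca7272_al.SkewDetRep

open MvPolynomial Matrix Pool.Agent.H4.SkewDet

/-- exponent vector `(a, b)` -/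
noncomputable def f2 (a b : ℕ) : Fin 2 →₀ ℕ := Finsupp.single 0 a + Finsupp.single 1 b

lemma f2_zero (a b : ℕ) : f2 a b 0 = a := by simp [f2]

lemma f2_one (a b : ℕ) : f2 a b 1 = b := by simp [f2]

lemma f2_eta (d : Fin 2 →₀ ℕ) : f2 (d 0) (d 1) = d := by
  ext i
  fin_cases i
  · exact f2_zero _ _
  · exact f2_one _ _

lemma f2_degree (a b : ℕ) : (f2 a b).degree = a + b := by
  rw [Finsupp.degree_eq_sum, Fin.sum_univ_two, f2_zero, f2_one]

/-- expansion of the evaluation -/
lemma eval_expand {n : ℕ} (p : MvPolynomial (Fin 2) ℂ) (hdeg : p.totalDegree ≤ n) (x y : ℂ) :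
    eval ![x, y] p = ∑ a ∈ Finset.range (n + 1), ∑ m ∈ Finset.range (n - a + 1),
      coeff (f2 a (n - a - m)) p * (x ^ a * y ^ (n - a - m)) := by
  classical
  rw [eval_eq', Finset.sum_sigma']
  set T := (Finset.range (n + 1)).sigma (fun a => Finset.range (n - a + 1)) with hT
  set e : (Σ _ : ℕ, ℕ) → (Fin 2 →₀ ℕ) := fun z => f2 z.1 (n - z.1 - z.2) with he
  have hinj : Set.InjOn e T := by
    rintro ⟨a, m⟩ h1 ⟨a', m'⟩ h2 h
    have h1' : a < n + 1 ∧ m < n - a + 1 := by simpa [hT] using h1
    have h2' : a' < n + 1 ∧ m' < n - a' + 1 := by simpa [hT] using h2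
    have h3 : a = a' := by
      have := congrArg (fun d => d 0) h
      simpa only [he, f2_zero] using this
    subst h3
    have h4 : n - a - m = n - a - m' := by
      have := congrArg (fun d => d 1) h
      simpa only [he, f2_one] using this
    have h5 : m = m' := by omega
    subst h5
    rfl
  have h1 : ∑ z ∈ T, coeff (f2 z.1 (n - z.1 - z.2)) p * (x ^ z.1 * y ^ (n - z.1 - z.2)) =
      ∑ d ∈ T.image e, coeff d p * (x ^ d 0 * y ^ d 1) := by
    rw [Finset.sum_image hinj]
    refine Finset.sum_congr rfl fun z _ => ?_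
    simp only [he, f2_zero, f2_one]
  rw [h1]
  have h2 : ∀ d ∈ p.support, d ∈ T.image e := by
    intro d hd
    have h3 : d.degree ≤ n := (MvPolynomial.le_totalDegree hd).trans hdeg
    rw [Finsupp.degree_eq_sum, Fin.sum_univ_two] at h3
    rw [Finset.mem_image]
    refine ⟨⟨d 0, n - d 0 - d 1⟩, ?_, ?_⟩
    · rw [hT, Finset.mem_sigma, Finset.mem_range, Finset.mem_range]
      constructor
      · simp only; omega
      · simp only; omega
    · simp only [he]
      have : n - d 0 - (n - d 0 - d 1) = d 1 := by omega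
      rw [this, f2_eta]
  rw [Finset.sum_subset h2]
  · refine Finset.sum_congr rfl fun d _ => ?_
    rw [Fin.prod_univ_two]
    rfl
  · intro d _ hd
    rw [MvPolynomial.notMem_support_iff.mp hd, zero_mul]

/-- **Theorem.** Every admissible two-variable polynomial of total degree `n` has a
skew-symmetric determinantal representation of size `n`. -/
theorem result (n : ℕ) (hn : 1 ≤ n) (p : MvPolynomial (Fin 2) ℂ)
    (hdeg : p.totalDegree = n)
    (hstab : ∀ x y : ℂ, 0 < x.im → 0 < y.im → eval ![x, y] p ≠ 0)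
    (hpar : ∀ m ∈ p.support, (m 0 + m 1) % 2 = n % 2)
    (h10 : eval ![1, 0] (homogeneousComponent n p) ≠ 0)
    (h01 : eval ![0, 1] (homogeneousComponent n p) ≠ 0) :
    ∃ (A B₁ B₂ : Matrix (Fin n) (Fin n) ℝ) (c : ℂ),
      Aᵀ = -A ∧ B₁.PosDef ∧ B₂.PosDef ∧ c ≠ 0 ∧
      p = C c * (A.map (fun a : ℝ => C (a : ℂ)) +
        (C Complex.I : MvPolynomial (Fin 2) ℂ) •
          ((X 0 : MvPolynomial (Fin 2) ℂ) • B₁.map (fun a : ℝ => C (a : ℂ)) +
            (X 1 : MvPolynomial (Fin 2) ℂ) • B₂.map (fun a : ℝ => C (a : ℂ)))).det := by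
  classical
  have hhc : (homogeneousComponent n p).totalDegree ≤ n := by
    exact (homogeneousComponent_isHomogeneous n p).totalDegree_le
  -- leading coefficients
  set c0 : ℂ := coeff (f2 n 0) p with hc0
  have hc0ne : c0 ≠ 0 := by
    intro h
    apply h10
    rw [eval_expand _ hhc]
    refine Finset.sum_eq_zero fun a ha => Finset.sum_eq_zero fun m hm => ?_
    have ha' := Finset.mem_range.mp ha
    have hm' := Finset.mem_range.mp hm
    by_cases h1 : n - a - m = 0
    · rw [coeff_homogeneousComponent, f2_degree]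
      split_ifs with h2
      · have h3 : a = n := by omega
        subst h3
        have h4 : a - a - m = 0 := by omega
        rw [h4, ← hc0, h, zero_mul]
      · rw [zero_mul]
    · rw [zero_pow h1, mul_zero, mul_zero]
  have hc0n : coeff (f2 0 n) p ≠ 0 := by
    intro h
    apply h01
    rw [eval_expand _ hhc]
    refine Finset.sum_eq_zero fun a ha => Finset.sum_eq_zero fun m hm => ?_
    have ha' := Finset.mem_range.mp ha
    have hm' := Finset.mem_range.mp hm
    by_cases h1 : a = 0
    · subst h1
      rw [coeff_homogeneousComponent, f2_degree]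
      split_ifs with h2
      · have h3 : n - 0 - m = n := by omega
        rw [h3, h, zero_mul]
      · rw [zero_mul]
    · rw [zero_pow h1, zero_mul, mul_zero]
  set c : ℕ → ℕ → ℂ := fun a b => coeff (f2 a b) p / c0 with hc
  have harr : Arr n c := by
    refine ⟨?_, ?_⟩
    · simp only [hc]
      exact div_self hc0ne
    · intro a m ham hm
      simp only [hc]
      have : coeff (f2 a (n - a - m)) p = 0 := by
        by_contra h
        have h1 := hpar _ (MvPolynomial.mem_support_iff.mpr h)
        rw [f2_zero, f2_one] at h1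
        omega
      rw [this, zero_div]
  have hPp : ∀ x y : ℂ, (Pp n c y 1).eval x = eval ![x, y] p / c0 := by
    intro x y
    rw [Pp_eval harr, eval_expand p hdeg.le, Finset.sum_div]
    refine Finset.sum_congr rfl fun a _ => ?_
    rw [cf, Finset.sum_mul, Finset.sum_div]
    refine Finset.sum_congr rfl fun m _ => ?_
    simp only [hc, one_pow]
    ring
  have hS : Stab n c := by
    intro x y hx hy
    rw [hPp]
    exact div_ne_zero (hstab x y hx hy) hc0ne
  have h0n : c 0 n ≠ 0 := div_ne_zero hc0n hc0ne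
  obtain ⟨K, B, hK, hB, hKB⟩ := array_main hn harr hS h0n
  refine ⟨K, 1, B, c0 * (-Complex.I) ^ n, hK, Matrix.PosDef.one, hB,
    mul_ne_zero hc0ne (pow_ne_zero _ (neg_ne_zero.mpr Complex.I_ne_zero)), ?_⟩
  refine MvPolynomial.funext_set (fun i : Fin 2 =>
    if i = 0 then Set.univ else Set.range fun t : {t : ℝ // t ≠ 0} => ((t : ℝ) : ℂ)) ?_ ?_
  · intro i
    split_ifs
    · exact Set.infinite_univ
    · have : Infinite {t : ℝ // t ≠ 0} := by
        have h1 : (Set.Infinite ({0}ᶜ : Set ℝ)) := (Set.finite_singleton (0 : ℝ)).infinite_compl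
        exact h1.to_subtype
      refine Set.infinite_range_of_injective ?_
      intro a b hab
      exact Subtype.ext (Complex.ofReal_injective hab)
  · intro v hv
    have hv1 := hv 1 (Set.mem_univ _)
    simp only [one_ne_zero, if_false] at hv1
    obtain ⟨⟨y, hy⟩, hy1⟩ := hv1
    simp only at hy1
    have hv2 : v = ![v 0, (y : ℂ)] := by
      funext i
      fin_cases i
      · rfl
      · exact hy1.symm
    rw [hv2]
    set x := v 0 with hx
    have h1 := hKB x y hy
    rw [hPp] at h1
    have h2 : eval ![x, (y : ℂ)] p = c0 * (Matrix.scalar (Fin n) x +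
        (y : ℂ) • B.map (algebraMap ℝ ℂ) - Complex.I • K.map (algebraMap ℝ ℂ)).det := by
      rw [← h1]
      field_simp
    rw [h2, map_mul, eval_C, RingHom.map_det]
    have h3 : (eval ![x, (y : ℂ)]).mapMatrix (K.map (fun a : ℝ => C (a : ℂ)) +
        (C Complex.I : MvPolynomial (Fin 2) ℂ) •
          ((X 0 : MvPolynomial (Fin 2) ℂ) • (1 : Matrix (Fin n) (Fin n) ℝ).map
              (fun a : ℝ => C (a : ℂ)) +
            (X 1 : MvPolynomial (Fin 2) ℂ) • B.map (fun a : ℝ => C (a : ℂ)))) =
        Complex.I • (Matrix.scalar (Fin n) x +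
          (y : ℂ) • B.map (algebraMap ℝ ℂ) - Complex.I • K.map (algebraMap ℝ ℂ)) := by
      ext i j
      by_cases hij : i = j
      · subst hij
        simp
        ring_nf
        simp
      · simp [hij]
        ring_nf
        simp
    rw [h3, Matrix.det_smul, Fintype.card_fin]
    have h4 : (-Complex.I) ^ n * Complex.I ^ n = 1 := by
      rw [← mul_pow]
      simp
    calc _ = c0 * ((-Complex.I) ^ n * Complex.I ^ n) * (Matrix.scalar (Fin n) x +
        (y : ℂ) • B.map (algebraMap ℝ ℂ) - Complex.I • K.map (algebraMap ℝ ℂ)).det := by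
          rw [h4, mul_one]
      _ = _ := by ring

end Pool.Agent.Results.MP_ca7272_al.SkewDetRep
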